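import Pool.Agent.Lib_helper18.G5.MM01
import Pool.Agent.Lib_helper29.G4.PDET
import Pool.Agent.Lib_helper29.G5.LOGF
import Pool.Agent.Lib_helper29.G5.VLRG
import Pool.Agent.Lib_helper38.G4.HATC
import Pool.Agent.Lib_helper44.G5.Basic
import Pool.Agent.Lib_helper44.G5.Defs
import Pool.Agent.Lib_helper55.G5.MM2
import Pool.Agent.Lib_helper76.G5.MM4
import Pool.Agent.Lib_helper85.G5.MBCF

/-!
# G5, block LOWD: the divergent case; cites mb_cf, mm1, mm2, mm4, var_large, log_modes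
-/

namespace Pool.Agent.G5

open Pool.Agent.G4

open Complex MeasureTheory Filter Topology

variable {m : ℕ}

theorem lowd_FF_cont (c : ℕ → ℕ → ℂ) (P K : ℕ) (x : Ix) : Continuous (FF c P K x) := by
  unfold FF
  fun_prop

/-- Chebyshev's inequality on a finite set -/
theorem lowd_cheb {ι : Type*} (s : Finset ι) (f : ι → ℝ) (hf : ∀ i ∈ s, 0 ≤ f i) {A l : ℝ}
    (hl : 0 < l) (h : ∑ i ∈ s, f i ≤ A) :
    (open Classical in ((s.filter (fun i => l < f i)).card : ℝ)) ≤ A / l := by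
  classical
  rw [le_div_iff₀ hl]
  calc ((s.filter (fun i => l < f i)).card : ℝ) * l = ∑ i ∈ s.filter (fun i => l < f i), l := by
        rw [Finset.sum_const, nsmul_eq_mul]
    _ ≤ ∑ i ∈ s.filter (fun i => l < f i), f i :=
        Finset.sum_le_sum fun i hi => (Finset.mem_filter.1 hi).2.le
    _ ≤ ∑ i ∈ s, f i :=
        Finset.sum_le_sum_of_subset_of_nonneg (Finset.filter_subset _ _) fun i hi _ => hf i hi
    _ ≤ A := h

theorem lowd_bump {α β : ℝ} (h : α < β) : ∃ w : ℝ → ℝ, ContDiff ℝ 2 w ∧ HasCompactSupport w ∧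
    (∀ t, 0 ≤ w t) ∧ (∀ t, w t ≤ 1) ∧ (∀ t, t ∉ Set.Icc α β → w t = 0) ∧ 0 < ∫ t, w t := by
  let f : ContDiffBump ((α + β) / 2 : ℝ) := ⟨(β - α) / 4, (β - α) / 2, by linarith, by linarith⟩
  refine ⟨f, f.contDiff, f.hasCompactSupport, fun t => f.nonneg, fun t => f.le_one, ?_,
    f.integral_pos⟩
  intro t ht
  by_contra hne
  have h1 : t ∈ Function.support (f : ℝ → ℝ) := hne
  rw [f.support_eq, Metric.mem_ball, Real.dist_eq, abs_lt] at h1
  apply ht
  change -((β - α) / 2) < t - (α + β) / 2 ∧ t - (α + β) / 2 < (β - α) / 2 at h1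
  exact ⟨by linarith [h1.1], by linarith [h1.2]⟩

/-- the logarithm of the Euler product as a sum -/
theorem lowd_log (S : Sys m) (P : ℕ) (x : Ix) {s : ℂ} (hs : 1 / 2 < s.re) :
    Real.log ‖LP S P x s‖ = ∑ p ∈ Nat.primesBelow (P + 1), ((fun _ : ℕ => (1 : ℝ)) p) *
      Real.log ‖(∏ j, (1 - S.α p j * (ev x p * (p : ℂ) ^ (-s))))⁻¹‖ := by
  unfold LP
  rw [norm_prod, Real.log_prod]
  · refine Finset.sum_congr rfl fun p _ => ?_
    rw [one_mul]
  · intro p hp
    rw [Ne, norm_eq_zero]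
    exact inv_ne_zero (bs5_factor_ne S (Nat.prime_of_mem_primesBelow hp) x hs)

/-- LOWD -/
theorem low_div_pr (S : Sys m) (h : ¬ Summable fun p : Nat.Primes => Ap S 0 p) {α β : ℝ}
    (hαβ : α < β) {ε : ℝ} (hε : 0 < ε) : ∃ c : ℝ, 0 < c ∧ ∀ R : ℝ, ∃ η₀ : ℝ, 0 < η₀ ∧
      ∀ η ∈ Set.Ioc (0 : ℝ) η₀, ∃ P₀ : ℕ, ∀ P : ℕ, P₀ ≤ P → ∃ Q₀ : ℕ, ∀ Q : ℕ, Q₀ ≤ Q →
        ∃ G : Finset Ix, G ⊆ pairs S.N Q ∧ (G.card : ℝ) ≤ ε * Q ^ 2 ∧
          ∀ x ∈ pairs S.N Q, x ∉ G → c ≤ (volume {t ∈ Set.Icc α β |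
            R ≤ Real.log ‖LP S P x (1 / 2 + η + t * I)‖}).toReal := by
  classical
  obtain ⟨w, hw2, hc, h0, h1, hsupp, hW⟩ := lowd_bump hαβ
  have hw := hw2.continuous
  set W : ℝ := ∫ t, w t with hWdef
  obtain ⟨C₁, hd⟩ := hat_decay_pr hw2 hc
  obtain ⟨D₁, C₀, hD₁, hC₀, hmb⟩ := mb_cf_pr S
  obtain ⟨A1, hA1, hpm1⟩ := mm1_pr S.N hw hc hd C₀
  obtain ⟨A2, hA2, hpm2⟩ := mm2_pr S.N hw hc hd C₀
  obtain ⟨A4, hA4, hpm4⟩ := mm4_pr S.N hw hc h0 C₀
  -- constants
  set L : ℝ := 3 * (A4 + 1) / ε with hL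
  have hL0 : 0 < L := by positivity
  set K : ℝ := 64 * L / W ^ 2 with hK
  have hK0 : 0 < K := by positivity
  refine ⟨1 / (8 * K), by positivity, fun B₀ => ?_⟩
  set B : ℝ := B₀ + 1 with hB
  set M₁ : ℝ := √(3 * (A1 + 1) / ε) with hM₁
  have hM₁0 : 0 < M₁ := Real.sqrt_pos.2 (by positivity)
  have hM₁sq : M₁ ^ 2 = 3 * (A1 + 1) / ε := Real.sq_sqrt (by positivity)
  set B' : ℝ := max B 0 with hB'
  have hB'0 : 0 ≤ B' := le_max_right _ _
  -- how large must `V` be
  set R : ℝ := 1 + (4 / W) * (K * (4 * M₁ + 8 * B' * W) ^ 2) + 96 * (A2 + 1) / (ε * W ^ 2) with hR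
  obtain ⟨η₀, hη₀, hV⟩ := var_large_pr S h (C₀ * R)
  refine ⟨η₀, hη₀, fun η hη => ?_⟩
  obtain ⟨P₀, hP₀⟩ := hV η hη
  refine ⟨P₀, fun P hP => ?_⟩
  have hVR0 := hP₀ P hP
  obtain ⟨K₀, hK₀⟩ := log_modes_pr S hη.1 P (σ := fun _ => 1) (fun _ => Or.inl rfl)
  set J : ℕ := max m K₀ with hJ
  have hlogm := hK₀ J (le_max_right _ _)
  obtain ⟨hMB, hsum, -⟩ := hmb (fun _ => 1) (fun _ => Or.inl rfl) η hη.1.le P J (le_max_left _ _)
  set cc : ℕ → ℕ → ℂ := fun p k => (((fun _ : ℕ => (1 : ℝ)) p : ℝ) : ℂ) * cf S η p k with hcc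
  set V : ℝ := VF cc P J with hVdef
  have hVR : R ≤ V := by
    have h2 : C₀ * R ≤ C₀ * V := hVR0.trans hsum
    exact le_of_mul_le_mul_left h2 hC₀
  have hR1 : 1 ≤ R := by
    have e1 : 0 ≤ (4 / W) * (K * (4 * M₁ + 8 * B' * W) ^ 2) := by positivity
    have e2 : 0 ≤ 96 * (A2 + 1) / (ε * W ^ 2) := by positivity
    linarith
  have hV1 : 1 ≤ V := hR1.trans hVR
  have hV0 : 0 < V := by linarith
  obtain ⟨Q1, hQ1⟩ := hpm1 cc _ P J hMB
  obtain ⟨Q2, hQ2⟩ := hpm2 cc _ P J hMB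
  obtain ⟨Q4, hQ4⟩ := hpm4 cc _ P J hMB
  refine ⟨max Q1 (max Q2 Q4), fun Q hQ => ?_⟩
  have q1 := hQ1 Q ((le_max_left _ _).trans hQ)
  have q2 := hQ2 Q (((le_max_left _ _).trans (le_max_right _ _)).trans hQ)
  have q4 := hQ4 Q (((le_max_right _ _).trans (le_max_right _ _)).trans hQ)
  set X : Ix → ℝ → ℝ := fun x t => (FF cc P J x t).re with hXdef
  set f1 : Ix → ℝ := fun x => (∫ t : ℝ, w t * X x t) ^ 2 with hf1
  set f2 : Ix → ℝ := fun x => ((∫ t : ℝ, w t * X x t ^ 2) - W * V / 2) ^ 2 with hf2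
  set f4 : Ix → ℝ := fun x => ∫ t : ℝ, w t * X x t ^ 4 with hf4
  have hf4n : ∀ x, 0 ≤ f4 x := fun x => integral_nonneg fun t =>
    mul_nonneg (h0 t) (by positivity)
  set l1 : ℝ := M₁ ^ 2 with hl1
  set l2 : ℝ := (W * V / 4) ^ 2 with hl2
  set l4 : ℝ := L * (1 + V) ^ 2 with hl4
  have hl10 : 0 < l1 := by positivity
  have hl20 : 0 < l2 := by positivity
  have hl40 : 0 < l4 := by positivity
  set G : Finset Ix := ((pairs S.N Q).filter (fun x => l1 < f1 x)) ∪
    (((pairs S.N Q).filter (fun x => l2 < f2 x)) ∪ ((pairs S.N Q).filter (fun x => l4 < f4 x)))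
    with hG
  have hQ2n : (0 : ℝ) ≤ (Q : ℝ) ^ 2 := by positivity
  have c1 := lowd_cheb (pairs S.N Q) f1 (fun x _ => by positivity) hl10 q1
  have c2 := lowd_cheb (pairs S.N Q) f2 (fun x _ => by positivity) hl20 q2
  have c4 := lowd_cheb (pairs S.N Q) f4 (fun x _ => hf4n x) hl40 q4
  refine ⟨G, ?_, ?_, ?_⟩
  · rw [hG]
    exact Finset.union_subset (Finset.filter_subset _ _)
      (Finset.union_subset (Finset.filter_subset _ _) (Finset.filter_subset _ _))
  · have e1 : A1 * (Q : ℝ) ^ 2 / l1 ≤ ε / 3 * Q ^ 2 := by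
      rw [hM₁sq, div_le_iff₀ (by positivity)]
      have : ε / 3 * (Q : ℝ) ^ 2 * (3 * (A1 + 1) / ε) = (A1 + 1) * Q ^ 2 := by
        field_simp
      rw [this]
      nlinarith
    have e2 : A2 * (1 + V) * (Q : ℝ) ^ 2 / l2 ≤ ε / 3 * Q ^ 2 := by
      rw [div_le_iff₀ hl20, hl2]
      have e3 : 96 * (A2 + 1) / (ε * W ^ 2) ≤ V := by
        have e1 : 0 ≤ (4 / W) * (K * (4 * M₁ + 8 * B' * W) ^ 2) := by positivity
        linarith
      rw [div_le_iff₀ (by positivity)] at e3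
      have e4 : A2 * (1 + V) ≤ ε / 3 * (W * V / 4) ^ 2 := by
        have e5 : A2 * (1 + V) ≤ 2 * A2 * V := by nlinarith
        have e6 : 2 * A2 * V ≤ ε / 3 * (W * V / 4) ^ 2 := by
          have e7 : ε / 3 * (W * V / 4) ^ 2 = (V * (ε * W ^ 2)) * V / 48 := by ring
          rw [e7]
          have e8 : 96 * (A2 + 1) * V ≤ (V * (ε * W ^ 2)) * V := by
            exact mul_le_mul_of_nonneg_right e3 hV0.le
          nlinarith
        exact e5.trans e6
      calc A2 * (1 + V) * (Q : ℝ) ^ 2 ≤ (ε / 3 * (W * V / 4) ^ 2) * Q ^ 2 := by gcongr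
        _ = _ := by ring
    have e3 : A4 * (1 + V) ^ 2 * (Q : ℝ) ^ 2 / l4 ≤ ε / 3 * Q ^ 2 := by
      rw [div_le_iff₀ hl40, hl4, hL]
      have : ε / 3 * (Q : ℝ) ^ 2 * (3 * (A4 + 1) / ε * (1 + V) ^ 2) =
          (A4 + 1) * (1 + V) ^ 2 * Q ^ 2 := by
        field_simp
      rw [this]
      have : 0 ≤ (1 + V) ^ 2 * (Q : ℝ) ^ 2 := by positivity
      nlinarith
    have e4 : (G.card : ℝ) ≤ ((pairs S.N Q).filter (fun x => l1 < f1 x)).card +
        (((pairs S.N Q).filter (fun x => l2 < f2 x)).card +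
        ((pairs S.N Q).filter (fun x => l4 < f4 x)).card) := by
      have e5 := Finset.card_union_le ((pairs S.N Q).filter (fun x => l1 < f1 x))
        (((pairs S.N Q).filter (fun x => l2 < f2 x)) ∪
          ((pairs S.N Q).filter (fun x => l4 < f4 x)))
      have e6 := Finset.card_union_le ((pairs S.N Q).filter (fun x => l2 < f2 x))
        ((pairs S.N Q).filter (fun x => l4 < f4 x))
      exact_mod_cast e5.trans (Nat.add_le_add_left e6 _)
    have e5 := c1.trans e1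
    have e6 := c2.trans e2
    have e7 := c4.trans e3
    linarith
  · intro x hx hxG
    have n1 : f1 x ≤ l1 := by
      by_contra h
      push Not at h
      exact hxG (Finset.mem_union_left _ (Finset.mem_filter.2 ⟨hx, h⟩))
    have n2 : f2 x ≤ l2 := by
      by_contra h
      push Not at h
      exact hxG (Finset.mem_union_right _ (Finset.mem_union_left _ (Finset.mem_filter.2 ⟨hx, h⟩)))
    have n4 : f4 x ≤ l4 := by
      by_contra h
      push Not at h
      exact hxG (Finset.mem_union_right _ (Finset.mem_union_right _ (Finset.mem_filter.2 ⟨hx, h⟩)))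
    have hX : Continuous (X x) := Complex.continuous_re.comp (lowd_FF_cont cc P J x)
    set V' : ℝ := W * V / 4 with hV'
    have hV'0 : 0 < V' := by positivity
    have p1 : |∫ t : ℝ, w t * X x t| ≤ M₁ := abs_le_of_sq_le_sq n1 hM₁0.le
    have p2 : V' ≤ ∫ t : ℝ, w t * X x t ^ 2 := by
      have := abs_le_of_sq_le_sq n2 hV'0.le
      rw [abs_le] at this
      have h3 := this.1
      linarith
    have p4 : ∫ t : ℝ, w t * X x t ^ 4 ≤ K * V' ^ 2 := by
      refine n4.trans ?_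
      have : K * V' ^ 2 = L * (2 * V) ^ 2 := by
        rw [hK, hV']
        field_simp
        ring
      rw [this, hl4]
      have : (1 + V) ^ 2 ≤ (2 * V) ^ 2 := pow_le_pow_left₀ (by linarith) (by linarith) 2
      gcongr
    -- largeness
    have hbig : 4 * M₁ + 8 * B' * W ≤ √(V' / K) := by
      apply Real.le_sqrt_of_sq_le
      rw [le_div_iff₀ hK0, hV']
      have e2 : 0 ≤ 96 * (A2 + 1) / (ε * W ^ 2) := by positivity
      have e3 : (4 / W) * (K * (4 * M₁ + 8 * B' * W) ^ 2) ≤ V := by linarith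
      have e4 : (4 / W) * (K * (4 * M₁ + 8 * B' * W) ^ 2) * (W / 4) ≤ V * (W / 4) :=
        mul_le_mul_of_nonneg_right e3 (by positivity)
      have e5 : (4 / W) * (K * (4 * M₁ + 8 * B' * W) ^ 2) * (W / 4) =
          (4 * M₁ + 8 * B' * W) ^ 2 * K := by
        field_simp
      rw [e5] at e4
      linarith
    have hBW : 0 ≤ B' * W := by positivity
    have p5 : M₁ ≤ √(V' / K) / 4 := by linarith
    have p6 : B' * (∫ t : ℝ, w t) ≤ √(V' / K) / 8 := by
      rw [← hWdef]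
      linarith
    have hfin := pdet_pr hw hX hc h0 hV'0 hK0 hB'0 p1 p2 p4 p5 p6
    refine hfin.trans ?_
    set E : Set ℝ := {t | B' ≤ X x t} with hE
    have hEm : MeasurableSet E := (isClosed_le continuous_const hX).measurableSet
    have hwi : Integrable w := hw.integrable_of_hasCompactSupport hc
    have e1 : ∫ t in E, w t ≤ ∫ t in E, (Set.Icc α β).indicator (fun _ => (1 : ℝ)) t := by
      apply setIntegral_mono hwi.integrableOn
      · exact ((integrable_indicator_iff measurableSet_Icc).2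
          (integrableOn_const (hs := by simp))).integrableOn
      · intro t
        by_cases ht : t ∈ Set.Icc α β
        · simp only [Set.indicator_of_mem ht]
          exact h1 t
        · simp only [Set.indicator_of_notMem ht]
          rw [hsupp t ht]
    refine e1.trans ?_
    rw [setIntegral_indicator measurableSet_Icc, setIntegral_const, smul_eq_mul, mul_one]
    rw [measureReal_def]
    apply ENNReal.toReal_mono
    · exact ((measure_mono (fun t ht => ht.1)).trans_lt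
        (by simp : volume (Set.Icc α β) < ⊤)).ne
    · apply measure_mono
      intro t ht
      refine ⟨ht.2, ?_⟩
      have h5 : B ≤ X x t := (le_max_left _ _).trans ht.1
      have h6 := hlogm x t
      have h7 := lowd_log S P x (s := 1 / 2 + η + t * I) (by simp; linarith [hη.1])
      rw [← h7] at h6
      have h8 := (abs_le.1 h6).1
      have h9 : (FF cc P J x t).re = X x t := rfl
      rw [h9] at h8
      linarith

end Pool.Agent.G5
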