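import Pool.Agent.Lib_helper24.G5.FAME
import Pool.Agent.Lib_helper44.G5.Basic
import Pool.Agent.Lib_helper44.G5.Defs
import Pool.Agent.Lib_helper44.G5.PINEQ
import Pool.Agent.Lib_helper55.G5.APPR

/-!
# G5, block TWOX: the lower bound
-/

namespace Pool.Agent.G5

open Pool.Agent.G4

open Complex MeasureTheory Filter Topology

variable {m : ℕ}

/-- a lower bound for the integral on an interval -/
theorem twox_low {f : ℝ → ℝ} (hf : Continuous f) (h0 : ∀ t, 0 ≤ f t) {α β : ℝ} (hαβ : α ≤ β)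
    {E : Set ℝ} (hE : MeasurableSet E) (hEI : E ⊆ Set.Icc α β) {R : ℝ} (hR : ∀ t ∈ E, R ≤ f t) :
    (volume E).toReal * R ≤ ∫ t in α..β, f t := by
  have hfin : volume E ≠ ⊤ := ne_top_of_le_ne_top (by simp) (measure_mono hEI)
  have hint : IntegrableOn f (Set.Icc α β) := hf.integrableOn_Icc
  have h1 : (volume E).toReal * R ≤ ∫ t in E, f t := by
    have h2 : ∫ _ in E, R = (volume E).toReal * R := by
      rw [setIntegral_const, smul_eq_mul]
      rfl
    rw [← h2]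
    exact setIntegral_mono_on (integrableOn_const hfin) (hint.mono_set hEI) hE hR
  refine h1.trans ?_
  rw [intervalIntegral.integral_of_le hαβ, ← integral_Icc_eq_integral_Ioc]
  exact setIntegral_mono_set hint (Eventually.of_forall h0) (LE.le.eventuallyLE hEI)

theorem two_gen_pr {S : Sys m} (hm1 : 1 ≤ m) (hm : m ≤ 4) (k : Kers S) {B : Finset ℕ}
    (hB : ∀ p ∈ B, p.Prime) {φ : ℝ → ℝ} (hφ : ContDiff ℝ 2 φ) (hc : HasCompactSupport φ)
    (h0 : ∀ t, 0 ≤ φ t) {α₁ β₁ α₂ β₂ : ℝ} (h1 : ∀ t ∈ Set.Icc α₁ β₁, φ t = 1) (hα : α₁ < α₂)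
    (hαβ : α₂ < β₂) (hβ : β₂ < β₁) {g : ℝ} (hg0 : 0 < g)
    (hg : ∀ δ, ∀ η ∈ Set.Icc (0 : ℝ) 1, ∀ t ∈ Set.Icc α₂ β₂, g ≤ ‖S.gam δ (1 / 2 + η + t * I)‖)
    {R c ε : ℝ} (hc0 : 0 < c) (hε : 0 < ε)
    (hlow : ∃ η₀ : ℝ, 0 < η₀ ∧ ∀ η ∈ Set.Ioc (0 : ℝ) η₀, ∃ P₀ : ℕ, ∀ P : ℕ, P₀ ≤ P →
      ∃ Q₀ : ℕ, ∀ Q : ℕ, Q₀ ≤ Q → ∃ G : Finset Ix, G ⊆ pairs S.N Q ∧ (G.card : ℝ) ≤ ε * Q ^ 2 ∧
        ∀ x ∈ pairs S.N Q, x ∉ G → c ≤ (volume {t ∈ Set.Icc α₂ β₂ |
          R ≤ Real.log ‖LP S P x (1 / 2 + η + t * I) * PB S B x (1 / 2 + η + t * I) ^ 2‖}).toReal) :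
    ∃ Q₀ : ℕ, ∀ Q : ℕ, Q₀ ≤ Q → ∃ G : Finset Ix, G ⊆ pairs S.N Q ∧
      (G.card : ℝ) ≤ 3 * ε * Q ^ 2 ∧ ∀ x ∈ pairs S.N Q, x ∉ G →
        g * c * Real.exp R / 2 ≤ ∫ t : ℝ, φ t * ‖HE (EP k B) x (t * I)‖ := by
  classical
  have hFam : Fam S.N (EP k B) := fam_EP_pr hm k hB
  obtain ⟨CP, hCP, hP⟩ := pineq_pr hFam hφ hc h0 h1 hα hαβ.le hβ
  -- the constants
  set T : ℝ := g * c * Real.exp R with hT
  have hT0 : 0 < T := by positivity
  obtain ⟨η₀, hη₀, hlow⟩ := hlow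
  set η : ℝ := min (min η₀ (1 / 4)) ((T / 4) / (√(CP / ε) + 1)) with hη
  have hη0 : 0 < η := lt_min (lt_min hη₀ (by norm_num)) (by positivity)
  have hη1 : η ≤ 1 / 4 := (min_le_left _ _).trans (min_le_right _ _)
  have hηη : η ≤ η₀ := (min_le_left _ _).trans (min_le_left _ _)
  have hηC : η ≤ (T / 4) / (√(CP / ε) + 1) := min_le_right _ _
  obtain ⟨P₁, hlow⟩ := hlow η ⟨hη0, hηη⟩
  set M : ℝ := (2 ^ (m * B.card)) ^ 2 with hM
  have hM0 : 0 < M := by positivity
  have hJ0 : 0 < β₂ - α₂ := by linarith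
  set s : ℝ := T / (4 * M * (β₂ - α₂)) with hs
  have hs0 : 0 < s := by positivity
  have hsM : M * ((β₂ - α₂) * s) = T / 4 := by
    rw [hs]
    field_simp
  set lam : ℝ := s ^ 2 * (β₂ - α₂) with hlam
  have hlam0 : 0 < lam := by positivity
  obtain ⟨P₂, happr⟩ := appr_pr hm1 hm k hαβ.le hη0 hη1 (ε := ε * lam) (by positivity)
  set P : ℕ := max P₁ P₂ with hPdef
  obtain ⟨Q₁, hQ₁⟩ := hlow P (le_max_left _ _)
  obtain ⟨Q₂, hQ₂⟩ := happr P (le_max_right _ _)
  refine ⟨max Q₁ Q₂, fun Q hQ => ?_⟩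
  have hQ1 : Q₁ ≤ Q := (le_max_left _ _).trans hQ
  have hQ2 : Q₂ ≤ Q := (le_max_right _ _).trans hQ
  obtain ⟨G₁, hG₁s, hG₁c, hG₁⟩ := hQ₁ Q hQ1
  obtain ⟨E, hE1, hE2⟩ := hP η ⟨hη0, hη1⟩ Q
  set f3 : Ix → ℝ := fun x => ∫ t in α₂..β₂, ‖Hf k x (η + t * I) -
    S.gam (par x.2) (1 / 2 + η + t * I) * LP S P x (1 / 2 + η + t * I)‖ ^ 2 with hf3
  set f4 : Ix → ℝ := fun x => E x ^ 2 with hf4
  set G₃ := (pairs S.N Q).filter (fun x => lam ≤ f3 x) with hG₃
  set G₄ := (pairs S.N Q).filter (fun x => CP / ε + 1 ≤ f4 x) with hG₄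
  have hc3 : (G₃.card : ℝ) ≤ ε * Q ^ 2 := by
    refine bas_markov f3 (fun x _ => ?_) hlam0 (hQ₂ Q hQ2) le_rfl
    exact intervalIntegral.integral_nonneg hαβ.le fun t _ => sq_nonneg _
  have hc4 : (G₄.card : ℝ) ≤ ε * Q ^ 2 := by
    refine bas_markov f4 (fun x _ => sq_nonneg _) (by positivity) hE2 ?_
    have : ε * (CP / ε + 1) = CP + ε := by field_simp
    rw [this]
    linarith
  refine ⟨G₁ ∪ G₃ ∪ G₄, ?_, ?_, fun x hx hxG => ?_⟩
  · refine Finset.union_subset (Finset.union_subset hG₁s ?_) ?_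
    all_goals exact Finset.filter_subset _ _
  · have h2 : ((G₁ ∪ G₃ ∪ G₄).card : ℝ) ≤ G₁.card + G₃.card + G₄.card := by
      have h4 := Finset.card_union_le (G₁ ∪ G₃) G₄
      have h5 := Finset.card_union_le G₁ G₃
      have h6 : (G₁ ∪ G₃ ∪ G₄).card ≤ G₁.card + G₃.card + G₄.card := by omega
      exact_mod_cast h6
    linarith
  · -- the main argument
    have hx1 : x ∉ G₁ := fun h => hxG (by simp [h])
    have hx3 : f3 x < lam := by
      by_contra hcon
      exact hxG (by simp [hG₃, hx, not_lt.1 hcon])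
    have hx4 : f4 x < CP / ε + 1 := by
      by_contra hcon
      exact hxG (by
        have h2 : x ∈ G₄ := Finset.mem_filter.2 ⟨hx, not_lt.1 hcon⟩
        simp [h2])
    obtain ⟨_, hxN, hxp⟩ := bas_mem_pairs.1 hx
    obtain ⟨hE0, hE⟩ := hE1 x hx
    have hEη : η * E x ≤ T / 4 := by
      have h2 : E x ≤ √(CP / ε) + 1 := by
        refine abs_le_of_sq_le_sq' ?_ (by positivity) |>.2
        have h3 : √(CP / ε) ^ 2 = CP / ε := Real.sq_sqrt (by positivity)
        have h4 : f4 x = E x ^ 2 := rfl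
        nlinarith [Real.sqrt_nonneg (CP / ε)]
      calc η * E x ≤ (T / 4) / (√(CP / ε) + 1) * (√(CP / ε) + 1) :=
            mul_le_mul hηC h2 hE0 (by positivity)
        _ = T / 4 := by
          have : (√(CP / ε) + 1) ≠ 0 := by positivity
          field_simp
    -- the good set
    set T₁ : Set ℝ := {t ∈ Set.Icc α₂ β₂ |
      R ≤ Real.log ‖LP S P x (1 / 2 + η + t * I) * PB S B x (1 / 2 + η + t * I) ^ 2‖} with hT₁
    have hT1 : c ≤ (volume T₁).toReal := hG₁ x hx hx1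
    have hLPc : Continuous fun t : ℝ => LP S P x (1 / 2 + η + t * I) := bs5_LP_cont S P x hη0
    have hPBc : Continuous fun t : ℝ => PB S B x (1 / 2 + η + t * I) := bs5_PB_cont S hB x η
    have hne : ∀ t : ℝ, LP S P x (1 / 2 + η + t * I) * PB S B x (1 / 2 + η + t * I) ^ 2 ≠ 0 :=
      fun t => mul_ne_zero (bs5_LP_ne S P x (by simp; linarith))
        (pow_ne_zero 2 (bs5_PB_ne S hB x (by simp; linarith)))
    have hLc : Continuous fun t : ℝ =>
        Real.log ‖LP S P x (1 / 2 + η + t * I) * PB S B x (1 / 2 + η + t * I) ^ 2‖ := by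
      refine Continuous.log (hLPc.mul (hPBc.pow 2)).norm fun t => ?_
      rw [Ne, norm_eq_zero]
      exact hne t
    have hT₁m : MeasurableSet T₁ := by
      have : T₁ = Set.Icc α₂ β₂ ∩ {t | R ≤
        Real.log ‖LP S P x (1 / 2 + η + t * I) * PB S B x (1 / 2 + η + t * I) ^ 2‖} := rfl
      rw [this]
      exact measurableSet_Icc.inter (measurableSet_le measurable_const hLc.measurable)
    have hgc : Continuous fun t : ℝ => S.gam (par x.2) (1 / 2 + η + t * I) :=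
      S.gam_cont (par x.2) η hη0.le
    set F : ℝ → ℝ := fun t => ‖S.gam (par x.2) (1 / 2 + η + t * I) *
      (LP S P x (1 / 2 + η + t * I) * PB S B x (1 / 2 + η + t * I) ^ 2)‖ with hF
    have hFc : Continuous F := (hgc.mul (hLPc.mul (hPBc.pow 2))).norm
    have hlow : (volume T₁).toReal * (g * Real.exp R) ≤ ∫ t in α₂..β₂, F t := by
      refine twox_low hFc (fun t => norm_nonneg _) hαβ.le hT₁m (fun t ht => ht.1) fun t ht => ?_
      have ht1 : R ≤ Real.log ‖LP S P x (1 / 2 + η + t * I) *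
        PB S B x (1 / 2 + η + t * I) ^ 2‖ := ht.2
      have h5 : Real.exp R ≤ ‖LP S P x (1 / 2 + η + t * I) *
          PB S B x (1 / 2 + η + t * I) ^ 2‖ :=
        (Real.le_log_iff_exp_le (norm_pos_iff.2 (hne t))).1 ht1
      simp only [hF]
      rw [norm_mul]
      exact mul_le_mul (hg (par x.2) η ⟨hη0.le, by linarith⟩ t ht.1) h5 (Real.exp_pos _).le
        (norm_nonneg _)
    have hlow2 : T ≤ ∫ t in α₂..β₂, F t := by
      refine le_trans ?_ hlow
      calc T = c * (g * Real.exp R) := by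
            rw [hT]
            ring
        _ ≤ _ := mul_le_mul_of_nonneg_right hT1 (by positivity)
    -- the difference
    have hHc : Continuous fun t : ℝ => Hf k x (η + t * I) :=
      (bs5_Hf_cont k hx).comp (by fun_prop)
    set Df : ℝ → ℂ := fun t => Hf k x (η + t * I) -
      S.gam (par x.2) (1 / 2 + η + t * I) * LP S P x (1 / 2 + η + t * I) with hDf
    have hDfc : Continuous Df := hHc.sub (hgc.mul hLPc)
    have hdiff : ∫ t in α₂..β₂, ‖Df t‖ ≤ (β₂ - α₂) * s := by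
      have h2 : ∫ t in α₂..β₂, ‖Df t‖ ≤ ∫ t in α₂..β₂, (s / 2 + ‖Df t‖ ^ 2 / (2 * s)) := by
        refine intervalIntegral.integral_mono_on hαβ.le (hDfc.norm.intervalIntegrable _ _)
          (Continuous.intervalIntegrable (by fun_prop) _ _) fun t _ => ?_
        have h3 : s / 2 + ‖Df t‖ ^ 2 / (2 * s) - ‖Df t‖ =
            (‖Df t‖ - s) ^ 2 / (2 * s) := by
          field_simp
          ring
        have h4 : 0 ≤ (‖Df t‖ - s) ^ 2 / (2 * s) := by positivity
        linarith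
      have h5 : ∫ t in α₂..β₂, (s / 2 + ‖Df t‖ ^ 2 / (2 * s)) =
          (β₂ - α₂) * (s / 2) + f3 x / (2 * s) := by
        rw [intervalIntegral.integral_add (by simp)
          (Continuous.intervalIntegrable (by fun_prop) _ _), intervalIntegral.integral_const,
          intervalIntegral.integral_div, smul_eq_mul]
      rw [h5] at h2
      have h6 : f3 x / (2 * s) ≤ (β₂ - α₂) * (s / 2) := by
        rw [div_le_iff₀ (by positivity)]
        have h7 : (β₂ - α₂) * (s / 2) * (2 * s) = lam := by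
          rw [hlam]
          ring
        rw [h7]
        exact hx3.le
      linarith
    -- the comparison
    have hPc2 : Continuous fun t : ℝ => PB S B x (1 / 2 + η + t * I) ^ 2 * Hf k x (η + t * I) :=
      (hPBc.pow 2).mul hHc
    have hPle : ∀ t : ℝ, ‖PB S B x (1 / 2 + η + t * I) ^ 2‖ ≤ M := fun t => by
      rw [norm_pow, hM]
      exact pow_le_pow_left₀ (norm_nonneg _) (bs5_PB_le S hB x (by simp; linarith)) 2
    have htri : ∫ t in α₂..β₂, F t ≤
        (∫ t in α₂..β₂, ‖PB S B x (1 / 2 + η + t * I) ^ 2 * Hf k x (η + t * I)‖) +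
        M * ∫ t in α₂..β₂, ‖Df t‖ := by
      rw [← intervalIntegral.integral_const_mul,
        ← intervalIntegral.integral_add (hPc2.norm.intervalIntegrable _ _)
        (Continuous.intervalIntegrable (by fun_prop) _ _)]
      refine intervalIntegral.integral_mono_on hαβ.le (hFc.intervalIntegrable _ _)
        (Continuous.intervalIntegrable (by fun_prop) _ _) fun t _ => ?_
      simp only [hF, hDf]
      calc _ = ‖PB S B x (1 / 2 + η + t * I) ^ 2 * Hf k x (η + t * I) -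
          PB S B x (1 / 2 + η + t * I) ^ 2 * (Hf k x (η + t * I) -
          S.gam (par x.2) (1 / 2 + η + t * I) * LP S P x (1 / 2 + η + t * I))‖ := by
            congr 1
            ring
        _ ≤ ‖PB S B x (1 / 2 + η + t * I) ^ 2 * Hf k x (η + t * I)‖ +
          ‖PB S B x (1 / 2 + η + t * I) ^ 2 * (Hf k x (η + t * I) -
          S.gam (par x.2) (1 / 2 + η + t * I) * LP S P x (1 / 2 + η + t * I))‖ := norm_sub_le _ _
        _ ≤ _ := by
          rw [norm_mul (PB S B x (1 / 2 + η + t * I) ^ 2) (Hf k x (η + t * I) -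
            S.gam (par x.2) (1 / 2 + η + t * I) * LP S P x (1 / 2 + η + t * I))]
          gcongr
          exact hPle t
    have hHE : ∀ t : ℝ, HE (EP k B) x (η + t * I) =
        PB S B x (1 / 2 + η + t * I) ^ 2 * Hf k x (η + t * I) := fun t => by
      rw [HE_EP_pr hm k hB hxN hxp, ← add_assoc]
    have hHE2 : (∫ t in α₂..β₂, ‖HE (EP k B) x (η + t * I)‖) =
        ∫ t in α₂..β₂, ‖PB S B x (1 / 2 + η + t * I) ^ 2 * Hf k x (η + t * I)‖ := by
      simp only [hHE]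
    rw [hHE2] at hE
    have hMd : M * ∫ t in α₂..β₂, ‖Df t‖ ≤ T / 4 := by
      calc M * ∫ t in α₂..β₂, ‖Df t‖ ≤ M * ((β₂ - α₂) * s) :=
            mul_le_mul_of_nonneg_left hdiff hM0.le
        _ = T / 4 := hsM
    linarith

end Pool.Agent.G5
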